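import Mathlib
import Pool.Agent.Y729.DB.Norm
import Pool.Agent.N365.FH.A

/-!
# The discriminant of a number field and its ramified primes
-/

set_option autoImplicit false

namespace Pool.Agent.N751.WR

open NumberField IsDedekindDomain Module

theorem prime_factor {M : Type} [Field M] [NumberField M] (w : HeightOneSpectrum (𝓞 M)) {d : ℕ}
    (hd : d ≠ 0) (h : ∀ p ∈ d.primeFactors, (p : 𝓞 M) ∉ w.asIdeal) : (d : 𝓞 M) ∉ w.asIdeal := by
  intro hmem
  have hp := w.isPrime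
  rw [← Nat.prod_factorization_pow_eq_self hd, Finsupp.prod, Nat.cast_prod,
    Ideal.IsPrime.prod_mem_iff] at hmem
  obtain ⟨p, hpd, hpm⟩ := hmem
  rw [Nat.support_factorization] at hpd
  rw [Nat.cast_pow] at hpm
  exact h p hpd (hp.mem_of_pow_mem _ hpm)

/-- the sum of the `log p` over the primes `p ∣ N` of `ℚ` -/
theorem sum_le_log {N : ℕ} (hN : N ≠ 0) (T : Finset (HeightOneSpectrum (𝓞 ℚ)))
    (hT : ∀ v ∈ T, (N : 𝓞 ℚ) ∈ v.asIdeal) :
    ∑ v ∈ T, Real.log (Ideal.absNorm v.asIdeal : ℝ) ≤ Real.log N := by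
  classical
  have hinj : Function.Injective fun v : HeightOneSpectrum (𝓞 ℚ) => v.asIdeal := fun v w h =>
    HeightOneSpectrum.ext h
  have h1 : ∏ I ∈ T.image (fun v : HeightOneSpectrum (𝓞 ℚ) => v.asIdeal), I ∣
      Ideal.span {(N : 𝓞 ℚ)} := by
    apply Finset.prod_primes_dvd
    · intro I hI
      obtain ⟨v, _, rfl⟩ := Finset.mem_image.1 hI
      exact v.prime
    · intro I hI
      obtain ⟨v, hv, rfl⟩ := Finset.mem_image.1 hI
      rw [Ideal.dvd_span_singleton]
      exact hT v hv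
  rw [Finset.prod_image (fun v _ w _ h => hinj h)] at h1
  have h2 := map_dvd (Ideal.absNorm (S := 𝓞 ℚ)) h1
  rw [map_prod, Ideal.absNorm_span_natCast, NumberField.RingOfIntegers.rank, finrank_self,
    pow_one] at h2
  have h3 : ∏ v ∈ T, Ideal.absNorm v.asIdeal ≤ N := Nat.le_of_dvd (Nat.pos_of_ne_zero hN) h2
  have h0 : ∀ v ∈ T, (Ideal.absNorm v.asIdeal : ℝ) ≠ 0 := fun v _ => by
    exact_mod_cast fun h => v.ne_bot (Ideal.absNorm_eq_zero_iff.1 h)
  rw [← Real.log_prod h0]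
  refine Real.log_le_log ?_ (by exact_mod_cast h3)
  exact Finset.prod_pos fun v hv => lt_of_le_of_ne (Nat.cast_nonneg _) (h0 v hv).symm

/-- the discriminant is at most `N ^ (n - 1) (n!) ^ n` if all ramified primes divide `N` -/
theorem disc_le_log (M : Type) [Field M] [NumberField M] {N : ℕ} (hN : N ≠ 0)
    (h : ∀ p : ℕ, p.Prime → (p : ℤ) ∣ discr M → p ∣ N) :
    Real.log |(discr M : ℝ)| ≤ ((finrank ℚ M : ℝ) - 1) * Real.log N +
      finrank ℚ M * Real.log ((finrank ℚ M).factorial : ℝ) := by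
  classical
  have hI : Ideal.span {(N : 𝓞 ℚ)} ≠ 0 := by
    rw [Ne, Ideal.zero_eq_bot, Ideal.span_singleton_eq_bot]
    exact_mod_cast hN
  have hfin : {v : HeightOneSpectrum (𝓞 ℚ) | (N : 𝓞 ℚ) ∈ v.asIdeal}.Finite := by
    refine (Ideal.finite_factors hI).subset fun v hv => ?_
    show v.asIdeal ∣ _
    rw [Ideal.dvd_span_singleton]
    exact hv
  have hn : (1 : ℝ) ≤ finrank ℚ M := by exact_mod_cast (finrank_pos (R := ℚ) (M := M))
  have hlogD : Real.log (Ideal.absNorm (differentIdeal (𝓞 ℚ) (𝓞 M)) : ℝ) =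
      Real.log |(discr M : ℝ)| := by
    rw [Pool.Agent.N365.FH.log_diff ℚ M]
    have : (discr ℚ : ℝ) = 1 := by rw [Rat.numberField_discr]; norm_num
    rw [this]
    simp
  have hD0 : Ideal.absNorm (differentIdeal (𝓞 ℚ) (𝓞 M)) ≠ 0 := fun h0 =>
    differentIdeal_ne_bot (Ideal.absNorm_eq_zero_iff.1 h0)
  have hD : Ideal.absNorm (differentIdeal (𝓞 ℚ) (𝓞 M)) = (discr M).natAbs := by
    have h1 : (Ideal.absNorm (differentIdeal (𝓞 ℚ) (𝓞 M)) : ℝ) = |(discr M : ℝ)| := by
      refine Real.log_injOn_pos ?_ ?_ hlogD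
      · exact Set.mem_Ioi.2 (by exact_mod_cast Nat.pos_of_ne_zero hD0)
      · exact Set.mem_Ioi.2 (abs_pos.2 (by exact_mod_cast discr_ne_zero M))
    have h2 : |(discr M : ℝ)| = (((discr M).natAbs : ℕ) : ℝ) := by
      rw [Nat.cast_natAbs, Int.cast_abs]
    rw [h2] at h1
    exact_mod_cast h1
  have key := Pool.Agent.Y729.DB.disc_le (k := ℚ) (F := M) hfin.toFinset (by
    intro P hP
    -- a prime number `p` in `P` which divides the norm of `P`
    have hP0 : Ideal.absNorm P.asIdeal ≠ 0 := fun h0 =>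
      P.ne_bot (Ideal.absNorm_eq_zero_iff.1 h0)
    obtain ⟨p, hp, hpP⟩ : ∃ p ∈ (Ideal.absNorm P.asIdeal).primeFactors,
        (p : 𝓞 M) ∈ P.asIdeal := by
      by_contra hcon
      push Not at hcon
      exact prime_factor P hP0 hcon (Ideal.absNorm_mem _)
    have hpp := Nat.prime_of_mem_primeFactors hp
    have hpd : (p : ℤ) ∣ discr M := by
      have h1 : p ∣ Ideal.absNorm (differentIdeal (𝓞 ℚ) (𝓞 M)) :=
        (Nat.dvd_of_mem_primeFactors hp).trans (map_dvd (Ideal.absNorm (S := 𝓞 M)) hP)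
      rw [hD] at h1
      exact Int.natCast_dvd.2 h1
    have hpN := h p hpp hpd
    have hNP : (N : 𝓞 M) ∈ P.asIdeal := by
      obtain ⟨m, rfl⟩ := hpN
      rw [Nat.cast_mul]
      exact P.asIdeal.mul_mem_right _ hpP
    have hmem : (N : 𝓞 ℚ) ∈ P.asIdeal.comap (algebraMap (𝓞 ℚ) (𝓞 M)) := by
      rw [Ideal.mem_comap, map_natCast]
      exact hNP
    refine ⟨⟨P.asIdeal.comap (algebraMap (𝓞 ℚ) (𝓞 M)), ?_, ?_⟩, ?_, rfl⟩
    · haveI := P.isPrime
      exact Ideal.comap_isPrime _ _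
    · intro hb
      rw [hb, Ideal.mem_bot] at hmem
      exact hN (by exact_mod_cast hmem)
    · rw [Set.Finite.mem_toFinset]
      exact hmem)
  have hs := sum_le_log hN hfin.toFinset (fun v hv => by
    rw [Set.Finite.mem_toFinset] at hv
    exact hv)
  have hQ : Real.log |(discr ℚ : ℝ)| = 0 := by
    have : (discr ℚ : ℝ) = 1 := by rw [Rat.numberField_discr]; norm_num
    rw [this]
    simp
  rw [hQ, finrank_self] at key
  have h1 := mul_le_mul_of_nonneg_left hs (sub_nonneg.2 hn)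
  push_cast at key
  linarith

end Pool.Agent.N751.WR
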