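import Mathlib
import Pool.Agent.N234.VD.Lv

/-!
# The height of a rational function of the coordinates
-/

set_option autoImplicit false

namespace Pool.Agent.N751.WR

open NumberField Module Height
open Pool.Agent.N234.VD (pw zt_ne exists_max w_pw_const mono_le)

variable {K : Type} [Field K] [NumberField K] {N e : ℕ}

theorem ht_ratio (P Q : MvPolynomial (Fin N) K) (hP : P.totalDegree ≤ e) (hQ : Q.totalDegree ≤ e) :
    ∃ C : ℝ, 0 ≤ C ∧ ∀ (M : Type) [Field M] [NumberField M] [Algebra K M] (z : Fin N → M),
      MvPolynomial.aeval z Q ≠ 0 →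
      logHeight₁ (MvPolynomial.aeval z P / MvPolynomial.aeval z Q) ≤
        e * logHeight (Fin.cons 1 z : Fin (N + 1) → M) + C * finrank ℚ M := by
  classical
  set S := P.support ∪ Q.support with hS
  set a : Option (Bool × S) → K := fun o => o.elim 1 fun m => if m.1 then P.coeff m.2 else Q.coeff m.2
    with ha
  set c : ℕ := S.card + 1 with hc
  refine ⟨Real.log (c : ℝ) + logHeight a, add_nonneg (Real.log_nonneg ?_) (logHeight_nonneg _), ?_⟩
  · rw [hc]
    push_cast
    linarith [(Nat.cast_nonneg S.card : (0 : ℝ) ≤ S.card)]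
  intro M _ _ _ z hq
  have : FiniteDimensional K M := Module.Finite.of_restrictScalars_finite ℚ K M
  set q : M := MvPolynomial.aeval z Q with hqdef
  set u : Fin 2 → M := ![MvPolynomial.aeval z P, q] with hu
  set aM : Option (Bool × S) → M := fun o => algebraMap K M (a o) with haM
  set v : Option (Bool × S) × (Fin e → Fin (N + 1)) → M := fun p => aM p.1 * pw e z p.2 with hv
  have h1 : logHeight₁ (MvPolynomial.aeval z P / q) = logHeight u :=
    logHeight₁_div_eq_logHeight _ _
  have hu0 : u ≠ 0 := by
    intro h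
    exact hq (congrFun h 1)
  have hv0 : v ≠ 0 := by
    intro h
    have h3 := congrFun h (none, fun _ => 0)
    simp [hv, haM, ha, pw] at h3
  have hval : ∀ w : AbsoluteValue M ℝ, ∀ p, w (v p) ≤ ⨆ p, w (v p) := fun w p =>
    Finite.le_ciSup_of_le p le_rfl
  have hterm : ∀ (b : Bool) (R : MvPolynomial (Fin N) K), R.totalDegree ≤ e →
      R.support ⊆ S → (∀ m : S, a (some (b, m)) = R.coeff m) → ∀ w : AbsoluteValue M ℝ,
      ∀ m ∈ R.support, w (algebraMap K M (R.coeff m) * ∏ i, z i ^ m i) ≤ ⨆ p, w (v p) := by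
    intro b R hR hRS hb w m hm
    obtain ⟨i₀, h3, h4, h5⟩ := exists_max w z
    refine le_trans ?_ (hval w (some (b, ⟨m, hRS hm⟩), fun _ => i₀))
    simp only [hv, haM]
    rw [hb ⟨m, hRS hm⟩, map_mul, map_mul, w_pw_const]
    refine mul_le_mul_of_nonneg_left (mono_le w z m ?_ i₀ h4 h5) (w.nonneg _)
    refine le_trans ?_ hR
    refine le_trans (le_of_eq ?_) (MvPolynomial.le_totalDegree hm)
    rw [Finsupp.sum_fintype _ _ fun _ => rfl]
  have hsup0 : ∀ w : AbsoluteValue M ℝ, 0 ≤ ⨆ p, w (v p) := fun w =>
    Real.iSup_nonneg fun p => w.nonneg _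
  have hc1 : (1 : ℝ) ≤ c := by
    rw [hc]
    push_cast
    linarith [(Nat.cast_nonneg S.card : (0 : ℝ) ≤ S.card)]
  have hqs : ∀ R : MvPolynomial (Fin N) K, MvPolynomial.aeval z R =
      ∑ m ∈ R.support, algebraMap K M (R.coeff m) * ∏ i, z i ^ m i := fun R => by
    rw [MvPolynomial.aeval_def, MvPolynomial.eval₂_eq']
  -- archimedean
  have harch : ∀ (b : Bool) (R : MvPolynomial (Fin N) K), R.totalDegree ≤ e →
      R.support ⊆ S → (∀ m : S, a (some (b, m)) = R.coeff m) → ∀ w : AbsoluteValue M ℝ,
      w (MvPolynomial.aeval z R) ≤ c * ⨆ p, w (v p) := by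
    intro b R hR hRS hb w
    rw [hqs]
    calc w (∑ m ∈ R.support, algebraMap K M (R.coeff m) * ∏ i, z i ^ m i)
        ≤ ∑ m ∈ R.support, w (algebraMap K M (R.coeff m) * ∏ i, z i ^ m i) :=
          w.sum_le _ _
      _ ≤ ∑ m ∈ R.support, ⨆ p, w (v p) :=
          Finset.sum_le_sum fun m hm => hterm b R hR hRS hb w m hm
      _ = R.support.card * ⨆ p, w (v p) := by rw [Finset.sum_const, nsmul_eq_mul]
      _ ≤ c * ⨆ p, w (v p) := by
        refine mul_le_mul_of_nonneg_right ?_ (hsup0 w)
        have h3 : R.support.card ≤ S.card := Finset.card_le_card hRS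
        have h4 : (R.support.card : ℝ) ≤ S.card := by exact_mod_cast h3
        rw [hc]
        push_cast
        linarith
  have hna : ∀ (b : Bool) (R : MvPolynomial (Fin N) K), R.totalDegree ≤ e →
      R.support ⊆ S → (∀ m : S, a (some (b, m)) = R.coeff m) → ∀ w : AbsoluteValue M ℝ,
      IsNonarchimedean w → w (MvPolynomial.aeval z R) ≤ ⨆ p, w (v p) := by
    intro b R hR hRS hb w hw
    rw [hqs]
    by_cases hne : R.support.Nonempty
    · obtain ⟨m, hm, hle⟩ := IsNonarchimedean.finset_image_add_of_nonempty hw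
        (fun m => algebraMap K M (R.coeff m) * ∏ i, z i ^ m i) hne
      exact hle.trans (hterm b R hR hRS hb w m hm)
    · rw [Finset.not_nonempty_iff_eq_empty.1 hne, Finset.sum_empty, map_zero]
      exact hsup0 w
  have hPS : P.support ⊆ S := Finset.subset_union_left
  have hQS : Q.support ⊆ S := Finset.subset_union_right
  have haP : ∀ m : S, a (some (true, m)) = P.coeff m := fun m => by simp [ha]
  have haQ : ∀ m : S, a (some (false, m)) = Q.coeff m := fun m => by simp [ha]
  have h3 : logHeight u ≤ totalWeight M * Real.log (c : ℝ) + logHeight v := by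
    refine Pool.Agent.N265.CV.logHeight_le_of hu0 hv0 c (by rw [hc]; omega) ?_ ?_
    · intro w
      refine ciSup_le fun j => ?_
      fin_cases j
      · exact harch true P hP hPS haP w
      · exact harch false Q hQ hQS haQ w
    · intro w hw
      refine ciSup_le fun j => ?_
      fin_cases j
      · exact hna true P hP hPS haP w hw
      · exact hna false Q hQ hQS haQ w hw
  have h4 : logHeight v = logHeight aM + e * logHeight (Fin.cons 1 z : Fin (N + 1) → M) := by
    have haM0 : aM ≠ 0 := by
      intro h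
      have h5 := congrFun h none
      simp [haM, ha] at h5
    have hpw : logHeight (pw e z) = e * logHeight (Fin.cons 1 z : Fin (N + 1) → M) := by
      have h5 := logHeight_fun_prod_eq (x := fun (_ : Fin e) =>
        (Fin.cons 1 z : Fin (N + 1) → M)) (fun _ => zt_ne z)
      rw [Finset.sum_const, Finset.card_univ, Fintype.card_fin, nsmul_eq_mul] at h5
      exact h5
    have hpw0 : pw e z ≠ 0 := by
      intro h
      have h5 := congrFun h fun _ => 0
      simp [pw] at h5
    rw [← hpw]
    exact logHeight_fun_mul_eq haM0 hpw0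
  have h5 : logHeight aM ≤ finrank ℚ M * logHeight a := by
    have h6 : logHeight aM = finrank K M * logHeight a := by
      rw [← Pool.Agent.Helper259.HtExt.logHeight_ext]
    rw [h6]
    refine mul_le_mul_of_nonneg_right ?_ (logHeight_nonneg _)
    have h5 : finrank ℚ K * finrank K M = finrank ℚ M := finrank_mul_finrank ℚ K M
    have h6 : 0 < finrank ℚ K := finrank_pos
    exact_mod_cast (by nlinarith : finrank K M ≤ finrank ℚ M)
  rw [NumberField.totalWeight_eq_finrank] at h3
  rw [h1]
  rw [h4] at h3
  have h6 : (Real.log (c : ℝ) + logHeight a) * finrank ℚ M =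
      finrank ℚ M * Real.log (c : ℝ) + finrank ℚ M * logHeight a := by ring
  rw [h6]
  linarith

end Pool.Agent.N751.WR
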